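import Pool.Agent.H5.FR.Stmts

/-! # Project FRK, module TEX -/

set_option autoImplicit false

namespace Pool.Agent.H5.FR

open Finset

section

variable {V : Type} [Fintype V] [DecidableEq V] {b r : ℕ}

private theorem tex_part_disj (c : Finset V) (g : V → Fin b) {k l : Fin b} (h : k ≠ l) :
    Disjoint (part c g k) (part c g l) := by
  unfold part
  rw [Finset.disjoint_filter]
  intro v _ h1 h2
  exact h (h1.symm.trans h2)

private theorem tex_part_sub (c : Finset V) (g : V → Fin b) (k : Fin b) : part c g k ⊆ c :=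
  Finset.filter_subset _ _

private theorem tex_un_sub {h : ℕ} (A : Blk V b r (h + 1)) (i : Fin r) (S : Finset (Fin b)) :
    un A i S ⊆ A.1 := by
  unfold un
  rw [Finset.biUnion_subset]
  intro k _
  exact tex_part_sub _ _ _

private theorem tex_cs_un {h : ℕ} (χ : V → ℤ) (A : Blk V b r (h + 1)) (i : Fin r)
    (S : Finset (Fin b)) : cs χ (un A i S) = ∑ k ∈ S, cs χ (sub A i k).1 := by
  unfold cs un
  rw [Finset.sum_biUnion]
  intro k _ l _ hkl
  exact tex_part_disj _ _ hkl

private theorem tex_disj {h : ℕ} (A : Blk V b r (h + 1)) (i : Fin r) {S : Finset (Fin b)}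
    {e : Fin b} (he : e ∉ S) {T : Finset V} (hT : T ⊆ (sub A i e).1) :
    Disjoint (un A i S) T := by
  refine Disjoint.mono_right hT ?_
  unfold un
  rw [Finset.disjoint_biUnion_left]
  intro k hk
  exact tex_part_disj _ _ (fun h => he (h ▸ hk))

private theorem tex_rng {χ : V → ℤ} {lam β : ℕ} {u₀ : ℝ} {h : ℕ} {A : Blk V b r h}
    (hA : Good χ lam β u₀ h A) : Rng χ lam (u₀ * (β : ℝ) ^ h) A.1 := by
  cases h with
  | zero =>
    rw [pow_zero, mul_one]
    exact hA
  | succ h => exact hA.1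

private theorem tex_aux {ι : Type} [DecidableEq ι] (x : ι → ℤ) (M : ℝ) (P : Finset ι) (D : ℤ)
    (hx : ∀ k ∈ P, |(x k : ℝ)| ≤ M) (hD : 0 ≤ D) (hP : D + ∑ k ∈ P, x k < 0) :
    ∃ (S : Finset ι) (e : ι), e ∉ S ∧ |((D + ∑ k ∈ S, x k : ℤ) : ℝ)| ≤ M ∧
      |((D + ∑ k ∈ S, x k + x e : ℤ) : ℝ)| ≤ M := by
  induction P using Finset.induction_on with
  | empty =>
    rw [Finset.sum_empty] at hP
    omega
  | insert a P ha ih =>
    rcases lt_or_ge (D + ∑ k ∈ P, x k) 0 with h | h
    · exact ih (fun k hk => hx k (Finset.mem_insert_of_mem hk)) h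
    · refine ⟨P, a, ha, ?_, ?_⟩
      · rw [Finset.sum_insert ha] at hP
        have h1 := abs_le.1 (hx a (Finset.mem_insert_self a P))
        have h2 : (0 : ℝ) ≤ ((D + ∑ k ∈ P, x k : ℤ) : ℝ) := by exact_mod_cast h
        have h3 : ((D + ∑ k ∈ P, x k : ℤ) : ℝ) ≤ -(x a : ℝ) := by
          exact_mod_cast (by omega : D + ∑ k ∈ P, x k ≤ -x a)
        rw [abs_le]
        constructor <;> linarith
      · rw [Finset.sum_insert ha] at hP
        have h1 := abs_le.1 (hx a (Finset.mem_insert_self a P))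
        have h2 : (x a : ℝ) ≤ ((D + ∑ k ∈ P, x k + x a : ℤ) : ℝ) := by
          exact_mod_cast (by omega : x a ≤ D + ∑ k ∈ P, x k + x a)
        have h3 : ((D + ∑ k ∈ P, x k + x a : ℤ) : ℝ) ≤ 0 := by
          exact_mod_cast (by omega : D + ∑ k ∈ P, x k + x a ≤ 0)
        rw [abs_le]
        constructor <;> linarith

private theorem tex_pick {χ : V → ℤ} {M : ℝ} {g : V → Fin b} {c : Finset V} {M' : ℝ}
    (hm : Mass χ c g M) (hx : ∀ k, |((cs χ (part c g k) : ℤ) : ℝ)| ≤ M') {D : ℤ}
    (hD : |(D : ℝ)| ≤ M) :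
    ∃ (S : Finset (Fin b)) (e : Fin b), e ∉ S ∧
      |((D + ∑ k ∈ S, cs χ (part c g k) : ℤ) : ℝ)| ≤ M' ∧
      |((D + ∑ k ∈ S, cs χ (part c g k) + cs χ (part c g e) : ℤ) : ℝ)| ≤ M' := by
  classical
  rw [abs_le] at hD
  rcases le_or_gt 0 D with h0 | h0
  · refine tex_aux (fun k => cs χ (part c g k)) M'
      (univ.filter (fun k => cs χ (part c g k) < 0)) D (fun k _ => hx k) h0 ?_
    have h1 := hm.2
    have h2 : ∑ k, max (-((cs χ (part c g k) : ℤ) : ℝ)) 0 =
        -((∑ k ∈ univ.filter (fun k => cs χ (part c g k) < 0), cs χ (part c g k) : ℤ) : ℝ) := by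
      rw [Int.cast_sum, Finset.sum_filter, ← Finset.sum_neg_distrib]
      refine Finset.sum_congr rfl fun k _ => ?_
      split_ifs with h
      · have h' : ((cs χ (part c g k) : ℤ) : ℝ) < 0 := by exact_mod_cast h
        rw [max_eq_left (by linarith)]
      · have h' : (0 : ℝ) ≤ ((cs χ (part c g k) : ℤ) : ℝ) := by
          exact_mod_cast (not_lt.1 h)
        rw [max_eq_right (by linarith), neg_zero]
    rw [h2] at h1
    have h3 : ((D + ∑ k ∈ univ.filter (fun k => cs χ (part c g k) < 0),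
        cs χ (part c g k) : ℤ) : ℝ) < 0 := by
      rw [Int.cast_add]
      linarith
    exact_mod_cast h3
  · have key := tex_aux (fun k => -cs χ (part c g k)) M'
      (univ.filter (fun k => 0 < cs χ (part c g k))) (-D) (fun k _ => by
        have := hx k
        push_cast
        rw [abs_neg]
        exact this) (by omega) ?_
    · obtain ⟨S, e, h1, h2, h3⟩ := key
      refine ⟨S, e, h1, ?_, ?_⟩
      · rw [← abs_neg, ← Int.cast_neg]
        have e1 : -(D + ∑ k ∈ S, cs χ (part c g k)) = -D + ∑ k ∈ S, -cs χ (part c g k) := by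
          rw [Finset.sum_neg_distrib]
          ring
        rw [e1]
        exact h2
      · rw [← abs_neg, ← Int.cast_neg]
        have e1 : -(D + ∑ k ∈ S, cs χ (part c g k) + cs χ (part c g e)) =
            -D + ∑ k ∈ S, -cs χ (part c g k) + -cs χ (part c g e) := by
          rw [Finset.sum_neg_distrib]
          ring
        rw [e1]
        exact h3
    · have h1 := hm.1
      have h2 : ∑ k, max (((cs χ (part c g k) : ℤ) : ℝ)) 0 =
          ((∑ k ∈ univ.filter (fun k => 0 < cs χ (part c g k)), cs χ (part c g k) : ℤ) : ℝ) := by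
        rw [Int.cast_sum, Finset.sum_filter]
        refine Finset.sum_congr rfl fun k _ => ?_
        split_ifs with h
        · have h' : (0 : ℝ) < ((cs χ (part c g k) : ℤ) : ℝ) := by exact_mod_cast h
          rw [max_eq_left (by linarith)]
        · have h' : ((cs χ (part c g k) : ℤ) : ℝ) ≤ 0 := by
            exact_mod_cast (not_lt.1 h)
          rw [max_eq_right (by linarith)]
      rw [h2] at h1
      have h3 : ((-D + ∑ k ∈ univ.filter (fun k => 0 < cs χ (part c g k)),
          -cs χ (part c g k) : ℤ) : ℝ) < 0 := by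
        rw [Finset.sum_neg_distrib, Int.cast_add, Int.cast_neg, Int.cast_neg]
        linarith
      exact_mod_cast h3

private theorem tex_zero {χ : V → ℤ} (hχ : ∀ v, χ v = 1 ∨ χ v = -1) {lam : ℕ} {u₀ : ℝ}
    (hl : 1 ≤ lam) (hu : 8 * (lam : ℝ) ≤ u₀) {c : Finset V} (hc : Rng χ lam u₀ c) (D : ℤ)
    (hD : |(D : ℝ)| ≤ lam * u₀) : ∃ T, T ⊆ c ∧ cs χ T = -D := by
  classical
  have hl' : (1 : ℝ) ≤ lam := by exact_mod_cast hl
  set P := c.filter (fun v => χ v = 1) with hP
  set N := c.filter (fun v => ¬ χ v = 1) with hN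
  have h1 : P.card + N.card = c.card := by
    rw [hP, hN]
    exact Finset.card_filter_add_card_filter_not _
  have hN1 : ∀ v ∈ N, χ v = -1 := by
    intro v hv
    rw [hN, Finset.mem_filter] at hv
    rcases hχ v with h | h
    · exact absurd h hv.2
    · exact h
  have hP1 : ∀ v ∈ P, χ v = 1 := by
    intro v hv
    rw [hP, Finset.mem_filter] at hv
    exact hv.2
  have h2 : cs χ c = P.card - N.card := by
    unfold cs
    rw [← Finset.sum_filter_add_sum_filter_not c (fun v => χ v = 1)]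
    rw [Finset.sum_congr rfl hP1, Finset.sum_congr rfl hN1]
    simp
    ring
  obtain ⟨h3, h4⟩ := hc
  rw [abs_le] at h3 h4 hD
  have h1' : (P.card : ℝ) + N.card = c.card := by exact_mod_cast h1
  have h2' : ((cs χ c : ℤ) : ℝ) = P.card - N.card := by rw [h2]; push_cast; ring
  have hu2 : 8 * (lam : ℝ) * u₀ ≤ u₀ ^ 2 := by nlinarith
  have hPc : (lam : ℝ) * u₀ ≤ P.card := by nlinarith
  have hNc : (lam : ℝ) * u₀ ≤ N.card := by nlinarith
  rcases le_or_gt 0 D with h0 | h0
  · have h5 : D.toNat ≤ N.card := by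
      have h6 : ((D.toNat : ℤ) : ℝ) ≤ N.card := by
        rw [Int.toNat_of_nonneg h0]
        linarith
      exact_mod_cast h6
    obtain ⟨T, hT1, hT2⟩ := Finset.exists_subset_card_eq h5
    refine ⟨T, hT1.trans (Finset.filter_subset _ _), ?_⟩
    unfold cs
    rw [Finset.sum_congr rfl (fun v hv => hN1 v (hT1 hv)), Finset.sum_const, hT2]
    simp
    omega
  · have h5 : (-D).toNat ≤ P.card := by
      have h6 : (((-D).toNat : ℤ) : ℝ) ≤ P.card := by
        rw [Int.toNat_of_nonneg (by omega)]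
        push_cast
        linarith
      exact_mod_cast h6
    obtain ⟨T, hT1, hT2⟩ := Finset.exists_subset_card_eq h5
    refine ⟨T, hT1.trans (Finset.filter_subset _ _), ?_⟩
    unfold cs
    rw [Finset.sum_congr rfl (fun v hv => hP1 v (hT1 hv)), Finset.sum_const, hT2]
    simp
    omega

end

theorem tex_thm : TEXStmt := by
  intro V _ _ χ hχ lam β r hPH u₀ hu h
  have hl : (1 : ℝ) ≤ lam := by exact_mod_cast hPH.lam_pos
  have hβ : 0 < β := lt_of_le_of_lt (Nat.zero_le _) hPH.big
  have hb : 0 < β ^ 2 := pow_pos hβ 2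
  have hu0 : 0 ≤ u₀ := by linarith
  have hM : ∀ h : ℕ, 0 ≤ (lam : ℝ) * (u₀ * (β : ℝ) ^ h) := by
    intro h
    positivity
  induction h with
  | zero =>
    intro A
    refine ⟨fun D T hT => hT, fun _ => ?_, fun hA D hD => ?_⟩
    · refine ⟨Finset.empty_subset _, ?_⟩
      unfold cs
      simp
    · rw [pow_zero, mul_one] at hD
      exact tex_zero hχ hPH.lam_pos hu hA D hD
  | succ h ih =>
    intro A
    refine ⟨?_, ?_, ?_⟩
    · rintro D T ⟨i, S, e, Te, he, -, rfl, hTe, -, -⟩
      obtain ⟨h1, h2⟩ := (ih (sub A i e)).1 _ _ hTe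
      refine ⟨Finset.union_subset (tex_un_sub A i S) (h1.trans (tex_part_sub _ _ _)), ?_⟩
      have h3 : cs χ (un A i S ∪ Te) = cs χ (un A i S) + cs χ Te := by
        unfold cs
        exact Finset.sum_union (tex_disj A i he h1)
      rw [h3, h2]
      ring
    · rintro ⟨-, i, -, hg⟩
      refine ⟨i, ∅, ⟨0, hb⟩, ∅, Finset.notMem_empty _, hg, ?_, ?_, ?_, ?_⟩
      · simp [un]
      · have e1 : (0 : ℤ) + cs χ (un A i ∅) = 0 := by simp [un, cs]
        rw [e1]
        exact (ih _).2.1 (hg _)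
      · have e1 : (0 : ℤ) + cs χ (un A i ∅) = 0 := by simp [un, cs]
        rw [e1]
        simpa using hM h
      · have e1 : (0 : ℤ) + cs χ (un A i ∅) = 0 := by simp [un, cs]
        rw [e1, zero_add]
        exact (tex_rng (hg _)).2
    · rintro ⟨-, i, hm, hg⟩ D hD
      obtain ⟨S, e, he, h1, h2⟩ := tex_pick hm (M' := lam * (u₀ * (β : ℝ) ^ h))
        (fun k => (tex_rng (hg k)).2) hD
      have h3 : cs χ (un A i S) = ∑ k ∈ S, cs χ (part A.1 (A.2 i).1 k) := tex_cs_un χ A i S
      rw [← h3] at h1 h2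
      obtain ⟨Te, hTe⟩ := (ih (sub A i e)).2.2 (hg e) _ h1
      exact ⟨un A i S ∪ Te, i, S, e, Te, he, hg, rfl, hTe, h1, h2⟩

end Pool.Agent.H5.FR
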